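import Pool.Agent.N8.CoreDim.Rec

set_option autoImplicit false

open CategoryTheory MonoidalCategory Limits Module

namespace Pool.Agent.N8.CoreDim

noncomputable section

theorem H_of_projective (A : Rep.{0} K G) [Projective A] : H A := by
  obtain ⟨P, -, ⟨s⟩⟩ := (ses_U 0).congr (Iso.refl _) isoU
  let q : P ⊗ A ⟶ A := (s.π ▷ A) ≫ (λ_ A).hom
  have hq : Epi q := by
    have : Epi (s.π ▷ A) := (Rep.epi_iff_surjective _).2 (s.tensorRight A).surj
    exact epi_comp _ _
  refine (s.hH.tensor_right A).retract (Projective.factorThru (𝟙 A) q) q ?_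
  exact Projective.factorThru_comp _ _

theorem dl'_of_H {A : Rep.{0} K G} [FiniteDimensional K A.V] (h : H A) : dl' A = 0 := by
  have := h.fr.dim (sq A)
  unfold dl' dl
  rw [this]
  push_cast
  ring

theorem Split.finrank_eq {A B S : Rep.{0} K G} (s : Split A B S) [FiniteDimensional K S.V] :
    finrank K S.V = finrank K A.V + finrank K B.V := by
  have hinj : Function.Injective s.iB.hom.toLinearMap := by
    intro a b hab
    have := congrArg (fun v => s.pB.hom v) hab
    change s.pB.hom (s.iB.hom a) = s.pB.hom (s.iB.hom b) at this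
    rwa [comp_eq_id s.hB, comp_eq_id s.hB] at this
  have := finrank_map_add s.pA.hom.toLinearMap ⊤
  have e1 : (⊤ : Submodule K S.V).map s.pA.hom.toLinearMap = ⊤ := by
    rw [eq_top_iff]
    intro v _
    exact ⟨s.iA.hom v, trivial, comp_eq_id s.hA v⟩
  have hB : FiniteDimensional K B.V := FiniteDimensional.of_injective _ hinj
  have e2 : (⊤ : Submodule K S.V) ⊓ LinearMap.ker s.pA.hom.toLinearMap =
      (⊤ : Submodule K B.V).map s.iB.hom.toLinearMap := by
    ext v
    constructor
    · rintro ⟨_, hv⟩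
      have hv' : s.pA.hom v = 0 := hv
      refine ⟨s.pB.hom v, trivial, ?_⟩
      have := s.tot_apply v
      rw [hv', map_zero, zero_add] at this
      exact this
    · rintro ⟨w, _, rfl⟩
      exact ⟨trivial, comp_eq_zero s.hBA w⟩
  rw [e1, e2, finrank_map_inj _ hinj, finrank_top, finrank_top, finrank_top] at this
  exact this.symm

/-- The set of dimensions of complements of projective summands. -/
def coreSet (A : Rep.{0} K G) : Set ℕ :=
  {d : ℕ | ∃ N P' : Rep K G, Projective P' ∧ Nonempty (A ≅ N ⊞ P') ∧ Module.finrank K N.V = d}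

theorem le_of_mem {A : Rep.{0} K G} [hA : FiniteDimensional K A.V] {d : ℕ} (hd : d ∈ coreSet A) :
    dl' A ≤ d := by
  obtain ⟨N, P, hP, ⟨e⟩, rfl⟩ := hd
  have hS : FiniteDimensional K (N ⊞ P : Rep.{0} K G).V := finite_of_iso e hA
  have s := Split.biprod N P
  have hPf : FiniteDimensional K P.V :=
    Module.Finite.of_surjective s.pB.hom.toLinearMap (fun b => ⟨s.iB.hom b, comp_eq_id s.hB b⟩)
  rw [dl'_iso e, s.dl', dl'_of_H (H_of_projective P)]
  unfold dl' dl
  omega

section free

variable (A : Rep.{0} K G)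

/-- the range of the norm -/
abbrev W : Submodule K A.V := LinearMap.range (X A ∘ₗ Y A)

theorem exists_v : ∃ v : W A →ₗ[K] A.V, ∀ w, X A (Y A (v w)) = (w : A.V) := by
  obtain ⟨v, hv⟩ := LinearMap.exists_rightInverse_of_surjective (X A ∘ₗ Y A).rangeRestrict
    (LinearMap.range_rangeRestrict _)
  refine ⟨v, fun w => ?_⟩
  have := congrArg (fun l => ((l w : W A) : A.V)) hv
  exact this

theorem exists_l : ∃ l : A.V →ₗ[K] W A, ∀ w : W A, l (w : A.V) = w := by
  obtain ⟨l, hl⟩ := LinearMap.exists_leftInverse_of_injective (W A).subtype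
    (Submodule.ker_subtype _)
  refine ⟨l, fun w => ?_⟩
  exact congrArg (fun f => f w) hl

theorem exists_surj : ∃ q : A ⟶ F (W A), Function.Surjective q.hom := by
  obtain ⟨v, hv⟩ := exists_v A
  obtain ⟨l, hl⟩ := exists_l A
  let q : A ⟶ F (W A) := mkHom' (A := A) (B := F (W A))
    ({ toFun := fun z => (l (X A (Y A z)), l (Y A z), l (X A z), l z)
       map_add' := fun z w => by simp
       map_smul' := fun c z => by simp } : A.V →ₗ[K] (W A × W A × W A × W A))
    (fun z => by
      rw [X_mkRep]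
      simp [FX, (sq A).xx, ← (sq A).xy])
    (fun z => by
      rw [Y_mkRep]
      simp [FY, (sq A).yy])
  refine ⟨q, ?_⟩
  rintro ⟨t, a, b, c⟩
  let a' : W A := a - l (Y A (v t))
  let b' : W A := b - l (X A (v t))
  let c' : W A := c - l (v t) - l (X A (v a')) - l (Y A (v b'))
  have hxx := (sq A).xx
  have hyy := (sq A).yy
  have hxy := (sq A).xy
  have hxw : ∀ w : W A, X A (w : A.V) = 0 := by
    rintro ⟨_, ⟨u, rfl⟩⟩
    exact hxx _
  have hyw : ∀ w : W A, Y A (w : A.V) = 0 := by
    rintro ⟨_, ⟨u, rfl⟩⟩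
    change Y A (X A (Y A u)) = 0
    rw [hxy, hyy]
  refine ⟨v t + X A (v a') + Y A (v b') + (c' : A.V), ?_⟩
  have e1 : X A (v t + X A (v a') + Y A (v b') + (c' : A.V)) = X A (v t) + (b' : A.V) := by
    rw [map_add, map_add, map_add, hxx, hv, hxw, add_zero, add_zero]
  have e2 : Y A (v t + X A (v a') + Y A (v b') + (c' : A.V)) = Y A (v t) + (a' : A.V) := by
    rw [map_add, map_add, map_add, hyy, ← hxy, hv, hyw, add_zero, add_zero]
  have e3 : X A (Y A (v t + X A (v a') + Y A (v b') + (c' : A.V))) = (t : A.V) := by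
    rw [e2, map_add, hv, hxw, add_zero]
  change ((l (X A (Y A (v t + X A (v a') + Y A (v b') + (c' : A.V)))),
    l (Y A (v t + X A (v a') + Y A (v b') + (c' : A.V))),
    l (X A (v t + X A (v a') + Y A (v b') + (c' : A.V))),
    l (v t + X A (v a') + Y A (v b') + (c' : A.V))) : W A × W A × W A × W A) = (t, a, b, c)
  rw [e3, e2, e1]
  simp only [map_add, hl]
  refine Prod.ext rfl (Prod.ext ?_ (Prod.ext ?_ ?_))
  · simp [a']
  · simp [b']
  · simp [c']

theorem finrank_F (T₀ : Type) [AddCommGroup T₀] [Module K T₀] [FiniteDimensional K T₀] :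
    finrank K (F T₀).V = 4 * finrank K T₀ := by
  change finrank K (T₀ × T₀ × T₀ × T₀) = _
  rw [Module.finrank_prod, Module.finrank_prod, Module.finrank_prod]
  ring

theorem exists_mem [FiniteDimensional K A.V] : ∃ d ∈ coreSet A, (d : ℤ) = dl' A := by
  obtain ⟨q, hq⟩ := exists_surj A
  have : Epi q := (Rep.epi_iff_surjective _).2 hq
  have hP : Projective (F (W A)) := (H_F (W A)).projective
  let S : ShortComplex (Rep.{0} K G) := ShortComplex.mk (kernel.ι q) q (kernel.condition q)
  have hS : S.ShortExact := { exact := ShortComplex.exact_kernel q }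
  have : Projective S.X₃ := hP
  let e : A ≅ kernel q ⊞ F (W A) := (hS.splittingOfProjective).isoBinaryBiproduct
  refine ⟨finrank K (kernel q).V, ⟨kernel q, F (W A), hP, ⟨e⟩, rfl⟩, ?_⟩
  have hf : FiniteDimensional K (kernel q ⊞ F (W A) : Rep.{0} K G).V := finite_of_iso e inferInstance
  have h1 := (Split.biprod (kernel q) (F (W A))).finrank_eq
  have h2 : finrank K A.V = finrank K (kernel q ⊞ F (W A) : Rep.{0} K G).V :=
    LinearEquiv.finrank_eq (LinearEquiv.ofLinearMap e.hom.hom.toLinearMap e.inv.hom.toLinearMap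
    (by ext v; exact comp_eq_id e.inv_hom_id v) (by ext v; exact comp_eq_id e.hom_inv_id v))
  rw [finrank_F] at h1
  change (finrank K (kernel q).V : ℤ) = (finrank K A.V : ℤ) - 4 * (finrank K (W A) : ℤ)
  omega

theorem sInf_coreSet [FiniteDimensional K A.V] : ((sInf (coreSet A) : ℕ) : ℤ) = dl' A := by
  obtain ⟨d, hd, hd'⟩ := exists_mem A
  apply le_antisymm
  · rw [← hd']
    exact_mod_cast Nat.sInf_le hd
  · exact le_of_mem (Nat.sInf_mem ⟨d, hd⟩)

end free

/-- The core dimensions. -/
theorem core_eq (n : ℕ) : ((sInf (coreSet ((fun X : Rep.{0} K G => X ⊗ M)^[n] (𝟙_ (Rep K G)))) : ℕ) : ℤ) =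
    gg n 0 := by
  have h : FiniteDimensional K (T M n (𝟙_ (Rep.{0} K G))).V :=
    T_fin M n (inferInstanceAs (FiniteDimensional K K))
  have h2 := sInf_coreSet (T M n (𝟙_ (Rep.{0} K G)))
  exact h2.trans (g_iso M n isoU.symm)

end

end Pool.Agent.N8.CoreDim
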