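import Pool.Agent.N8.CoreDim.Ses

set_option autoImplicit false

open CategoryTheory MonoidalCategory Limits Module

namespace Pool.Agent.N8.CoreDim

noncomputable section

section mk

variable {V : Type} [AddCommGroup V] [Module K V]

/-- `z ↦ a ^ z` -/
def powHom (a : Module.End K V) (ha : a * a = 1) : Multiplicative (ZMod 2) →* Module.End K V where
  toFun z := if z = 1 then 1 else a
  map_one' := by simp
  map_mul' := by
    have h1 : ∀ z : Multiplicative (ZMod 2), z = 1 ∨ z = Multiplicative.ofAdd 1 := by decide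
    have h2 : (Multiplicative.ofAdd (1 : ZMod 2)) ≠ 1 := by decide
    have h3 : (Multiplicative.ofAdd (1 : ZMod 2)) * (Multiplicative.ofAdd (1 : ZMod 2)) = 1 := by
      decide
    intro z w
    rcases h1 z with rfl | rfl <;> rcases h1 w with rfl | rfl <;> simp [h2, h3, ha]

/-- The representation with given `X`, `Y`. -/
abbrev mkRep (X Y : V →ₗ[K] V) (h : Sq X Y) : Rep.{0} K G :=
  Rep.of (MonoidHom.noncommCoprod
    (powHom (V := V) (LinearMap.id + X) (by
      ext v
      change (v + X v) + X (v + X v) = v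
      rw [map_add, h.xx, add_zero, add_assoc, add_self', add_zero]))
    (powHom (V := V) (LinearMap.id + Y) (by
      ext v
      change (v + Y v) + Y (v + Y v) = v
      rw [map_add, h.yy, add_zero, add_assoc, add_self', add_zero]))
    (by
      intro z w
      simp only [powHom, MonoidHom.coe_mk, OneHom.coe_mk]
      split_ifs
      · exact Commute.refl _
      · exact Commute.one_left _
      · exact Commute.one_right _
      · change _ * _ = _ * _
        ext v
        change (v + Y v) + X (v + Y v) = (v + X v) + Y (v + X v)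
        rw [map_add, map_add, h.xy]
        abel))

theorem X_mkRep (X' Y' : V →ₗ[K] V) (h : Sq X' Y') (v : V) :
    X (mkRep X' Y' h) v = X' v := by
  have h2 : (Multiplicative.ofAdd (1 : ZMod 2)) ≠ 1 := by decide
  change v + ((if (Multiplicative.ofAdd (1 : ZMod 2)) = 1 then 1 else LinearMap.id + X') *
    (if (1 : Multiplicative (ZMod 2)) = 1 then 1 else LinearMap.id + Y') : Module.End K V) v = _
  rw [if_neg h2, if_pos rfl, mul_one]
  change v + (v + X' v) = X' v
  rw [← add_assoc, add_self', zero_add]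

theorem Y_mkRep (X' Y' : V →ₗ[K] V) (h : Sq X' Y') (v : V) :
    Y (mkRep X' Y' h) v = Y' v := by
  have h2 : (Multiplicative.ofAdd (1 : ZMod 2)) ≠ 1 := by decide
  change v + ((if (1 : Multiplicative (ZMod 2)) = 1 then 1 else LinearMap.id + X') *
    (if (Multiplicative.ofAdd (1 : ZMod 2)) = 1 then 1 else LinearMap.id + Y') : Module.End K V) v = _
  rw [if_neg h2, if_pos rfl, one_mul]
  change v + (v + Y' v) = Y' v
  rw [← add_assoc, add_self', zero_add]

theorem lx_mkRep (X' Y' : V →ₗ[K] V) (h : Sq X' Y') :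
    lx (mkRep X' Y' h) = LinearMap.id + X' := by
  ext v
  have h1 := X_mkRep X' Y' h v
  rw [X_apply] at h1
  have h2 := congrArg (fun w => v + w) h1
  simp only [← add_assoc] at h2
  rw [add_self', zero_add] at h2
  exact h2

theorem ly_mkRep (X' Y' : V →ₗ[K] V) (h : Sq X' Y') :
    ly (mkRep X' Y' h) = LinearMap.id + Y' := by
  ext v
  have h1 := Y_mkRep X' Y' h v
  rw [Y_apply] at h1
  have h2 := congrArg (fun w => v + w) h1
  simp only [← add_assoc] at h2
  rw [add_self', zero_add] at h2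
  exact h2

theorem H_mkRep (X' Y' : V →ₗ[K] V) (h : Sq X' Y') (E : V →ₗ[K] V)
    (hE : ∀ v, E v + (E (v + X' v) + X' (E (v + X' v))) + (E (v + Y' v) + Y' (E (v + Y' v))) +
      ((E ((v + Y' v) + X' (v + Y' v)) + Y' (E ((v + Y' v) + X' (v + Y' v)))) +
        X' (E ((v + Y' v) + X' (v + Y' v)) + Y' (E ((v + Y' v) + X' (v + Y' v))))) = v) :
    H (mkRep X' Y' h) := by
  refine ⟨E, fun v => ?_⟩
  rw [lx_mkRep, ly_mkRep]
  exact hE v

end mk

theorem lx_eq (A : Rep.{0} K G) (v : A.V) : lx A v = v + X A v := by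
  rw [X_apply, ← add_assoc, add_self', zero_add]

theorem ly_eq (A : Rep.{0} K G) (v : A.V) : ly A v = v + Y A v := by
  rw [Y_apply, ← add_assoc, add_self', zero_add]

/-- Build a morphism from a linear map commuting with `X`, `Y`. -/
def mkHom' {A B : Rep.{0} K G} (u : A.V →ₗ[K] B.V) (hx : ∀ v, u (X A v) = X B (u v))
    (hy : ∀ v, u (Y A v) = Y B (u v)) : A ⟶ B :=
  mkHom u (fun v => by rw [lx_eq, map_add, hx, ← lx_eq]) (fun v => by rw [ly_eq, map_add, hy, ← ly_eq])

@[simp] theorem mkHom'_apply {A B : Rep.{0} K G} (u : A.V →ₗ[K] B.V) (hx) (hy) (v : A.V) :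
    (mkHom' (A := A) (B := B) u hx hy).hom v = u v := rfl

/-- Isomorphism from a linear equivalence commuting with `X`, `Y`. -/
def mkIso' {A B : Rep.{0} K G} (u : A.V ≃ₗ[K] B.V) (hx : ∀ v, u (X A v) = X B (u v))
    (hy : ∀ v, u (Y A v) = Y B (u v)) : A ≅ B where
  hom := mkHom' u.toLinearMap hx hy
  inv := mkHom' u.symm.toLinearMap
    (fun v => by
      apply u.injective
      have := hx (u.symm v)
      simp only [LinearEquiv.coe_coe, LinearEquiv.apply_symm_apply] at this ⊢
      exact this.symm)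
    (fun v => by
      apply u.injective
      have := hy (u.symm v)
      simp only [LinearEquiv.coe_coe, LinearEquiv.apply_symm_apply] at this ⊢
      exact this.symm)
  hom_inv_id := by ext v; exact u.symm_apply_apply v
  inv_hom_id := by ext v; exact u.apply_symm_apply v

section FT

variable (T₀ : Type) [AddCommGroup T₀] [Module K T₀]

/-- `X` on the free module -/
def FX : (T₀ × T₀ × T₀ × T₀) →ₗ[K] (T₀ × T₀ × T₀ × T₀) where
  toFun v := (0, v.1, 0, v.2.2.1)
  map_add' v w := by simp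
  map_smul' c v := by simp

/-- `Y` on the free module -/
def FY : (T₀ × T₀ × T₀ × T₀) →ₗ[K] (T₀ × T₀ × T₀ × T₀) where
  toFun v := (0, 0, v.1, v.2.1)
  map_add' v w := by simp
  map_smul' c v := by simp

theorem Fsq : Sq (FX T₀) (FY T₀) where
  xx _ := rfl
  yy _ := rfl
  xy _ := rfl

/-- The free module -/
abbrev F : Rep.{0} K G := mkRep (FX T₀) (FY T₀) (Fsq T₀)

theorem XF (v : T₀ × T₀ × T₀ × T₀) : X (F T₀) v = ((0, v.1, 0, v.2.2.1) : T₀ × T₀ × T₀ × T₀) :=
  X_mkRep _ _ _ v

theorem YF (v : T₀ × T₀ × T₀ × T₀) : Y (F T₀) v = ((0, 0, v.1, v.2.1) : T₀ × T₀ × T₀ × T₀) :=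
  Y_mkRep _ _ _ v

/-- the Higman operator -/
def FE : (T₀ × T₀ × T₀ × T₀) →ₗ[K] (T₀ × T₀ × T₀ × T₀) where
  toFun v := (v.1 + v.2.1 + v.2.2.1 + v.2.2.2, 0, 0, 0)
  map_add' v w := by
    ext <;> simp
    abel
  map_smul' c v := by simp

theorem H_F : H (F T₀) := by
  refine H_mkRep _ _ _ (FE T₀) ?_
  rintro ⟨t, a, b, c⟩
  have ht := add_self' t
  have ha := add_self' a
  have hb := add_self' b
  have hc := add_self' c
  ext
  · simp only [FE, FX, FY, LinearMap.coe_mk, AddHom.coe_mk, Prod.mk_add_mk, add_zero, zero_add]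
    linear_combination (norm := module) (4 : ℕ) • ht + (3 : ℕ) • ha + (3 : ℕ) • hb + (2 : ℕ) • hc
  · simp only [FE, FX, FY, LinearMap.coe_mk, AddHom.coe_mk, Prod.mk_add_mk, add_zero, zero_add]
    linear_combination (norm := module) (3 : ℕ) • ht + (1 : ℕ) • ha + (2 : ℕ) • hb + (1 : ℕ) • hc
  · simp only [FE, FX, FY, LinearMap.coe_mk, AddHom.coe_mk, Prod.mk_add_mk, add_zero, zero_add]
    linear_combination (norm := module) (3 : ℕ) • ht + (2 : ℕ) • ha + (1 : ℕ) • hb + (1 : ℕ) • hc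
  · simp only [FE, FX, FY, LinearMap.coe_mk, AddHom.coe_mk, Prod.mk_add_mk, add_zero, zero_add]
    linear_combination (norm := module) (2 : ℕ) • ht + (1 : ℕ) • ha + (1 : ℕ) • hb

end FT

section Kr

variable {T₁ T₀ S₀ : Type} [AddCommGroup T₁] [Module K T₁] [AddCommGroup T₀] [Module K T₀]
  [AddCommGroup S₀] [Module K S₀]

/-- the square zero map attached to `ξ` -/
def KX (ξ : T₀ →ₗ[K] S₀) : (T₀ × S₀) →ₗ[K] (T₀ × S₀) where
  toFun v := (0, ξ v.1)
  map_add' v w := by simp
  map_smul' c v := by simp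

theorem Ksq (ξ η : T₀ →ₗ[K] S₀) : Sq (KX ξ) (KX η) where
  xx v := by simp [KX]
  yy v := by simp [KX]
  xy v := by simp [KX]

/-- The Kronecker representation -/
abbrev Kr (ξ η : T₀ →ₗ[K] S₀) : Rep.{0} K G := mkRep (KX ξ) (KX η) (Ksq ξ η)

theorem dl'_Kr (ξ η : T₀ →ₗ[K] S₀) : dl' (Kr ξ η) = (finrank K (T₀ × S₀) : ℤ) := by
  have h : X (Kr ξ η) ∘ₗ Y (Kr ξ η) = 0 := by
    apply LinearMap.ext
    intro v
    have h1 := X_mkRep (KX ξ) (KX η) (Ksq ξ η)
    have h2 := Y_mkRep (KX ξ) (KX η) (Ksq ξ η) v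
    change X (Kr ξ η) (Y (Kr ξ η) v) = 0
    rw [h2, h1]
    simp [KX]
  unfold dl' dl rk
  rw [h, LinearMap.range_zero, finrank_bot]
  simp

/-- The exact sequence `0 → Kr ξ' η' → F T₀ → Kr ξ η → 0`. -/
def KrSes (ξ η : T₀ →ₗ[K] S₀) (ξ' η' : T₁ →ₗ[K] T₀)
    (h1 : ∀ t, ξ' t = 0 → η' t = 0 → t = 0)
    (h2 : ∀ a b, ξ a + η b = 0 → ∃ t, η' t = a ∧ ξ' t = b)
    (h2' : ∀ t, ξ (η' t) + η (ξ' t) = 0)
    (h3 : ∀ s, ∃ a b, ξ a + η b = s) : SesData (Kr ξ' η') (F T₀) (Kr ξ η) where
  i := mkHom' (A := Kr ξ' η') (B := F T₀)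
    ({ toFun := fun v => (0, η' v.1, ξ' v.1, v.2)
       map_add' := fun v w => by simp
       map_smul' := fun c v => by simp } : (T₁ × T₀) →ₗ[K] (T₀ × T₀ × T₀ × T₀))
    (fun v => by
      rw [X_mkRep, X_mkRep]
      simp [KX, FX])
    (fun v => by
      rw [Y_mkRep, Y_mkRep]
      simp [KX, FY])
  π := mkHom' (A := F T₀) (B := Kr ξ η)
    ({ toFun := fun v => (v.1, ξ v.2.1 + η v.2.2.1)
       map_add' := fun v w => by simp; abel
       map_smul' := fun c v => by simp } : (T₀ × T₀ × T₀ × T₀) →ₗ[K] (T₀ × S₀))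
    (fun v => by
      rw [X_mkRep, X_mkRep]
      simp [KX, FX])
    (fun v => by
      rw [Y_mkRep, Y_mkRep]
      simp [KX, FY])
  inj := by
    rintro ⟨t, s⟩ ⟨t', s'⟩ hv
    have hv' : ((0, η' t, ξ' t, s) : T₀ × T₀ × T₀ × T₀) = (0, η' t', ξ' t', s') := hv
    simp only [Prod.mk.injEq, true_and] at hv'
    obtain ⟨ha, hb, rfl⟩ := hv'
    have := h1 (t - t') (by rw [map_sub, hb, sub_self]) (by rw [map_sub, ha, sub_self])
    rw [sub_eq_zero.1 this]
  surj := by
    rintro ⟨t, s⟩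
    obtain ⟨a, b, hab⟩ := h3 s
    refine ⟨((t, a, b, 0) : T₀ × T₀ × T₀ × T₀), ?_⟩
    change ((t, ξ a + η b) : T₀ × S₀) = (t, s)
    rw [hab]
  ex := by
    rintro ⟨t, a, b, c⟩ hv
    have hv' : ((t, ξ a + η b) : T₀ × S₀) = 0 := hv
    simp only [Prod.mk_eq_zero] at hv'
    obtain ⟨rfl, hab⟩ := hv'
    obtain ⟨t, rfl, rfl⟩ := h2 a b hab
    exact ⟨((t, c) : T₁ × T₀), rfl⟩
  zero := by
    rintro ⟨t, s⟩
    change ((0, ξ (η' t) + η (ξ' t)) : T₀ × S₀) = 0
    rw [h2']
    rfl
  hH := H_F T₀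

theorem KrSes' [FiniteDimensional K T₀] (ξ η : T₀ →ₗ[K] S₀) (ξ' η' : T₁ →ₗ[K] T₀)
    (h1 : ∀ t, ξ' t = 0 → η' t = 0 → t = 0)
    (h2 : ∀ a b, ξ a + η b = 0 → ∃ t, η' t = a ∧ ξ' t = b)
    (h2' : ∀ t, ξ (η' t) + η (ξ' t) = 0)
    (h3 : ∀ s, ∃ a b, ξ a + η b = s) : Ses (Kr ξ' η') (Kr ξ η) :=
  ⟨F T₀, inferInstanceAs (FiniteDimensional K (T₀ × T₀ × T₀ × T₀)),
    ⟨KrSes ξ η ξ' η' h1 h2 h2' h3⟩⟩

end Kr

/-- drop the first coordinate -/
def tl (m : ℕ) : (Fin (m + 1) → K) →ₗ[K] (Fin m → K) where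
  toFun v i := v i.succ
  map_add' _ _ := rfl
  map_smul' _ _ := rfl

/-- drop the last coordinate -/
def ini (m : ℕ) : (Fin (m + 1) → K) →ₗ[K] (Fin m → K) where
  toFun v i := v i.castSucc
  map_add' _ _ := rfl
  map_smul' _ _ := rfl

/-- add a zero at the end -/
def sn (m : ℕ) : (Fin m → K) →ₗ[K] (Fin (m + 1) → K) where
  toFun v := Fin.snoc v 0
  map_add' v w := by
    ext i
    refine Fin.lastCases ?_ (fun i => ?_) i <;> simp
  map_smul' c v := by
    ext i
    refine Fin.lastCases ?_ (fun i => ?_) i <;> simp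

/-- add a zero at the beginning -/
def cn (m : ℕ) : (Fin m → K) →ₗ[K] (Fin (m + 1) → K) where
  toFun v := Fin.cons 0 v
  map_add' v w := by
    ext i
    refine Fin.cases ?_ (fun i => ?_) i <;> simp
  map_smul' c v := by
    ext i
    refine Fin.cases ?_ (fun i => ?_) i <;> simp

/-- `Ω^m k` -/
abbrev U (m : ℕ) : Rep.{0} K G := Kr (tl m) (ini m)
/-- `Ω^{-m} k` -/
abbrev D (m : ℕ) : Rep.{0} K G := Kr (sn m) (cn m)

theorem dl'_U (m : ℕ) : dl' (U m) = 2 * m + 1 := by
  rw [dl'_Kr, Module.finrank_prod]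
  simp
  ring

theorem dl'_D (m : ℕ) : dl' (D m) = 2 * m + 1 := by
  rw [dl'_Kr, Module.finrank_prod]
  simp
  ring

theorem ses_U (m : ℕ) : Ses (U (m + 1)) (U m) := by
  apply KrSes'
  · intro t h1 h2
    ext i
    refine Fin.cases ?_ (fun i => ?_) i
    · exact congrFun h2 0
    · exact congrFun h1 i
  · intro a b hab
    refine ⟨Fin.cons (a 0) b, ?_, ?_⟩
    · ext i
      refine Fin.cases ?_ (fun i => ?_) i
      · rfl
      · have := congrFun hab i
        have h2 : b i.castSucc = a i.succ := eq_of_add_eq_zero' this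
        exact h2
    · rfl
  · intro t
    exact add_self' _
  · intro s
    refine ⟨Fin.cons 0 s, 0, ?_⟩
    rw [map_zero, add_zero]
    rfl

theorem cn_sn (m : ℕ) (t : Fin m → K) : cn (m + 1) (sn m t) = sn (m + 1) (cn m t) := by
  exact Fin.cons_snoc_eq_snoc_cons 0 t 0

theorem ses_D (m : ℕ) : Ses (D m) (D (m + 1)) := by
  apply KrSes'
  · intro t h1 h2
    ext i
    have := congrFun h1 i.castSucc
    simpa [sn] using this
  · intro a b hab
    have h0 : a 0 = 0 := by
      have := congrFun hab 0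
      have e : sn (m + 1) a 0 = a 0 := by
        change (Fin.snoc a 0 : Fin (m + 2) → K) (Fin.castSucc 0) = a 0
        rw [Fin.snoc_castSucc]
      have e' : cn (m + 1) b 0 = 0 := rfl
      simpa [e, e'] using this
    have hs : ∀ i : Fin (m + 1), b i = (Fin.snoc (α := fun _ => K) (fun j : Fin m => a j.succ) 0 :
        Fin (m + 1) → K) i := by
      intro i
      have h := congrFun hab i.succ
      have e' : cn (m + 1) b i.succ = b i := rfl
      refine Fin.lastCases ?_ (fun j => ?_) i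
      · have h := congrFun hab (Fin.last m).succ
        have e' : cn (m + 1) b (Fin.last m).succ = b (Fin.last m) := rfl
        have e : sn (m + 1) a (Fin.last m).succ = 0 := by
          change (Fin.snoc a 0 : Fin (m + 2) → K) (Fin.last (m + 1)) = 0
          rw [Fin.snoc_last]
        rw [Fin.snoc_last]
        rw [Pi.add_apply, e, e', zero_add] at h
        exact h
      · have h := congrFun hab j.castSucc.succ
        have e' : cn (m + 1) b j.castSucc.succ = b j.castSucc := rfl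
        have e : sn (m + 1) a j.castSucc.succ = a j.succ := by
          change (Fin.snoc a 0 : Fin (m + 2) → K) (Fin.castSucc j.succ) = a j.succ
          rw [Fin.snoc_castSucc]
        rw [Fin.snoc_castSucc]
        rw [Pi.add_apply, e, e'] at h
        exact eq_of_add_eq_zero' h
    refine ⟨fun j => a j.succ, ?_, ?_⟩
    · ext i
      refine Fin.cases ?_ (fun i => ?_) i
      · exact h0.symm
      · rfl
    · ext i
      exact (hs i).symm
  · intro t
    rw [cn_sn]
    exact add_self' _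
  · intro s
    refine ⟨fun i => if i = 0 then s 0 else 0, fun i => s i.succ, ?_⟩
    ext i
    refine Fin.cases ?_ (fun i => ?_) i
    · have e : sn (m + 1) (fun i => if i = 0 then s 0 else 0) 0 = s 0 := by
        change (Fin.snoc (fun i => if i = 0 then s 0 else 0) 0 : Fin (m + 2) → K)
          (Fin.castSucc 0) = s 0
        rw [Fin.snoc_castSucc]
        simp
      have e' : cn (m + 1) (fun i => s i.succ) 0 = 0 := rfl
      rw [Pi.add_apply, e, e', add_zero]
    · have e' : cn (m + 1) (fun i => s i.succ) i.succ = s i.succ := rfl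
      have e : sn (m + 1) (fun i => if i = 0 then s 0 else 0) i.succ = 0 := by
        refine Fin.lastCases ?_ (fun j => ?_) i
        · change (Fin.snoc (fun i => if i = 0 then s 0 else 0) 0 : Fin (m + 2) → K)
            (Fin.last (m + 1)) = 0
          rw [Fin.snoc_last]
        · change (Fin.snoc (fun i => if i = 0 then s 0 else 0) 0 : Fin (m + 2) → K)
            (Fin.castSucc j.succ) = 0
          rw [Fin.snoc_castSucc]
          simp [Fin.succ_ne_zero]
      rw [Pi.add_apply, e, e', zero_add]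

end

end Pool.Agent.N8.CoreDim
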