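import Mathlib

set_option autoImplicit false

/-!
Linear algebra behind the core dimension of a module over the algebra `k[X,Y]/(X²,Y²)`.
-/

namespace Pool.Agent.N8.CoreDim

open Module LinearMap

variable {k : Type*} [Field k]

section

variable {V : Type*} [AddCommGroup V] [Module k V]

/-- Two commuting endomorphisms of square zero. -/
structure Sq (X Y : V →ₗ[k] V) : Prop where
  xx : ∀ v, X (X v) = 0
  yy : ∀ v, Y (Y v) = 0
  xy : ∀ v, X (Y v) = Y (X v)

/-- The exactness properties of a free module over `k[X,Y]/(X²,Y²)`. -/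
structure Fr (X Y : V →ₗ[k] V) : Prop where
  kx : ∀ v, X v = 0 → ∃ w, X w = v
  ky : ∀ v, Y v = 0 → ∃ w, Y w = v
  kxy : ∀ v, X (Y v) = 0 → ∃ a b, X a + Y b = v

theorem finrank_map_add {W : Type*} [AddCommGroup W] [Module k W] [FiniteDimensional k V]
    (f : V →ₗ[k] W) (S : Submodule k V) :
    finrank k (S.map f) + finrank k (S ⊓ ker f : Submodule k V) = finrank k S := by
  have h := LinearMap.finrank_range_add_finrank_ker (f.domRestrict S)
  have h1 : range (f.domRestrict S) = S.map f := by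
    ext w
    constructor
    · rintro ⟨v, rfl⟩
      exact ⟨v, v.2, rfl⟩
    · rintro ⟨v, hv, rfl⟩
      exact ⟨⟨v, hv⟩, rfl⟩
  have h2 : (ker (f.domRestrict S)).map S.subtype = S ⊓ ker f := by
    ext v
    constructor
    · rintro ⟨w, hw, rfl⟩
      exact ⟨w.2, hw⟩
    · rintro ⟨hv, hv'⟩
      exact ⟨⟨v, hv⟩, hv', rfl⟩
  rw [h1, ← Submodule.finrank_map_subtype_eq, h2] at h
  exact h

theorem finrank_map_inj {W : Type*} [AddCommGroup W] [Module k W] [FiniteDimensional k V]
    (f : V →ₗ[k] W) (hf : Function.Injective f) (S : Submodule k V) :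
    finrank k (S.map f) = finrank k S := by
  have h := finrank_map_add f S
  rw [LinearMap.ker_eq_bot.2 hf, inf_bot_eq, finrank_bot] at h
  exact h

/-- The rank of `XY`. -/
noncomputable def rk (X Y : V →ₗ[k] V) : ℕ := finrank k (range (X ∘ₗ Y))

/-- The stable dimension `dim V - 4 rank (XY)`. -/
noncomputable def dl (X Y : V →ₗ[k] V) : ℤ := (finrank k V : ℤ) - 4 * (rk X Y : ℤ)

variable [FiniteDimensional k V]

theorem Fr.dim {X Y : V →ₗ[k] V} (h : Sq X Y) (f : Fr X Y) :
    finrank k V = 4 * rk X Y := by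
  have kx : ker X = range X := by
    ext v
    constructor
    · intro hv
      exact f.kx v hv
    · rintro ⟨w, rfl⟩
      exact h.xx w
  have ky : ker Y = range Y := by
    ext v
    constructor
    · intro hv
      exact f.ky v hv
    · rintro ⟨w, rfl⟩
      exact h.yy w
  have a := LinearMap.finrank_range_add_finrank_ker X
  have b := LinearMap.finrank_range_add_finrank_ker Y
  have c := finrank_map_add X (range Y)
  have d : range Y ⊓ ker X = range (X ∘ₗ Y) := by
    ext v
    constructor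
    · rintro ⟨⟨w, rfl⟩, hv⟩
      obtain ⟨a, b, hab⟩ := f.kxy w hv
      refine ⟨a, ?_⟩
      rw [← hab, map_add, h.yy, add_zero, comp_apply, h.xy]
    · rintro ⟨w, rfl⟩
      refine ⟨⟨X w, ?_⟩, ?_⟩
      · rw [comp_apply, h.xy]
      · exact h.xx _
  rw [d, ← LinearMap.range_comp] at c
  rw [kx] at a
  rw [ky] at b
  unfold rk
  omega

end

section ses

variable {A P B : Type*} [AddCommGroup A] [Module k A] [AddCommGroup P] [Module k P]
  [AddCommGroup B] [Module k B] [FiniteDimensional k A] [FiniteDimensional k P]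
  [FiniteDimensional k B]

omit [FiniteDimensional k P] in
theorem ker_comp_eq {X Y : P →ₗ[k] P} (h : Sq X Y) (f : Fr X Y) :
    ker (X ∘ₗ Y) = range X ⊔ range Y := by
  apply le_antisymm
  · intro v hv
    obtain ⟨a, b, rfl⟩ := f.kxy v hv
    exact Submodule.add_mem_sup ⟨a, rfl⟩ ⟨b, rfl⟩
  · rw [sup_le_iff]
    constructor
    · rintro _ ⟨w, rfl⟩
      rw [mem_ker, comp_apply, ← h.xy, h.xx]
    · rintro _ ⟨w, rfl⟩
      rw [mem_ker, comp_apply, h.yy, map_zero]

omit [FiniteDimensional k P] in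
theorem range_comp_eq {X Y : P →ₗ[k] P} (h : Sq X Y) (f : Fr X Y) :
    range (X ∘ₗ Y) = ker X ⊓ ker Y := by
  apply le_antisymm
  · rintro _ ⟨w, rfl⟩
    refine ⟨?_, ?_⟩
    · exact h.xx _
    · rw [SetLike.mem_coe, mem_ker, comp_apply, h.xy, h.yy]
  · rintro v ⟨hx, hy⟩
    rw [SetLike.mem_coe, mem_ker] at hx hy
    obtain ⟨w, rfl⟩ := f.kx v hx
    rw [← h.xy] at hy
    obtain ⟨a, b, hab⟩ := f.kxy w hy
    refine ⟨b, ?_⟩
    rw [← hab, map_add, h.xx, zero_add, comp_apply]

omit [FiniteDimensional k A] [FiniteDimensional k B] in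
theorem ses_finrank (i : A →ₗ[k] P) (π : P →ₗ[k] B) (hi : Function.Injective i)
    (hπ : Function.Surjective π) (hex : range i = ker π) :
    finrank k A + finrank k B = finrank k P := by
  have h := LinearMap.finrank_range_add_finrank_ker π
  rw [LinearMap.range_eq_top.2 hπ, finrank_top, ← hex, LinearMap.finrank_range_of_inj hi] at h
  omega

/-- The stable dimension of the kernel of a cover by a free module. -/
theorem ses_left (i : A →ₗ[k] P) (π : P →ₗ[k] B) (hi : Function.Injective i)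
    (hπ : Function.Surjective π) (hex : range i = ker π)
    {XA YA : A →ₗ[k] A} {XP YP : P →ₗ[k] P} {XB YB : B →ₗ[k] B}
    (h : Sq XP YP) (f : Fr XP YP)
    (hix : ∀ a, i (XA a) = XP (i a)) (hiy : ∀ a, i (YA a) = YP (i a))
    (hπx : ∀ a, π (XP a) = XB (π a)) (hπy : ∀ a, π (YP a) = YB (π a)) :
    dl XA YA = 3 * (finrank k B : ℤ) - 4 * (finrank k (range XB ⊔ range YB : Submodule k B) : ℤ) := by
  have hP := f.dim h
  have hAB := ses_finrank i π hi hπ hex
  have hrk : rk XA YA = finrank k ((range i).map (XP ∘ₗ YP)) := by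
    unfold rk
    rw [← finrank_map_inj i hi]
    have : (range (XA ∘ₗ YA)).map i = (range i).map (XP ∘ₗ YP) := by
      rw [← LinearMap.range_comp, ← LinearMap.range_comp]
      congr 1
      ext a
      simp [hix, hiy]
    rw [this]
  have hker := ker_comp_eq h f
  have e1 := finrank_map_add (XP ∘ₗ YP) (range i ⊔ ker (XP ∘ₗ YP))
  rw [Submodule.map_sup, inf_eq_right.2 (le_sup_right : ker (XP ∘ₗ YP) ≤ range i ⊔ ker (XP ∘ₗ YP)),
    (show Submodule.map (XP ∘ₗ YP) (ker (XP ∘ₗ YP)) = ⊥ by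
      rw [eq_bot_iff]
      rintro _ ⟨w, hw, rfl⟩
      exact hw), sup_bot_eq] at e1
  have e2 := finrank_map_add π (range i ⊔ ker (XP ∘ₗ YP))
  rw [← hex, inf_eq_right.2 (le_sup_left : range i ≤ range i ⊔ ker (XP ∘ₗ YP)),
    LinearMap.finrank_range_of_inj hi, Submodule.map_sup,
    (show Submodule.map π (range i) = ⊥ by
      rw [eq_bot_iff]
      rintro _ ⟨w, hw, rfl⟩
      rw [hex] at hw
      exact hw), bot_sup_eq] at e2
  have e3 : (ker (XP ∘ₗ YP)).map π = range XB ⊔ range YB := by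
    rw [hker, Submodule.map_sup]
    have hh : ∀ (Z : P →ₗ[k] P) (Z' : B →ₗ[k] B), (∀ a, π (Z a) = Z' (π a)) →
        (range Z).map π = range Z' := by
      intro Z Z' hZ
      ext v
      constructor
      · rintro ⟨_, ⟨w, rfl⟩, rfl⟩
        exact ⟨π w, (hZ w).symm⟩
      · rintro ⟨w, rfl⟩
        obtain ⟨w, rfl⟩ := hπ w
        exact ⟨Z w, ⟨w, rfl⟩, hZ w⟩
    rw [hh XP XB hπx, hh YP YB hπy]
  rw [e3] at e2
  have e4 := LinearMap.finrank_range_add_finrank_ker (XP ∘ₗ YP)
  unfold dl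
  rw [hrk]
  have : finrank k (range (XP ∘ₗ YP)) = rk XP YP := rfl
  omega

/-- The stable dimension of the cokernel of an embedding in a free module. -/
theorem ses_right (i : A →ₗ[k] P) (π : P →ₗ[k] B) (hi : Function.Injective i)
    (hπ : Function.Surjective π) (hex : range i = ker π)
    {XA YA : A →ₗ[k] A} {XP YP : P →ₗ[k] P} {XB YB : B →ₗ[k] B}
    (h : Sq XP YP) (f : Fr XP YP)
    (hix : ∀ a, i (XA a) = XP (i a)) (hiy : ∀ a, i (YA a) = YP (i a))
    (hπx : ∀ a, π (XP a) = XB (π a)) (hπy : ∀ a, π (YP a) = YB (π a)) :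
    dl XB YB = 4 * (finrank k (ker XA ⊓ ker YA : Submodule k A) : ℤ) - (finrank k A : ℤ) := by
  have hP := f.dim h
  have hAB := ses_finrank i π hi hπ hex
  have hrk : rk XB YB = finrank k ((range (XP ∘ₗ YP)).map π) := by
    unfold rk
    have : range (XB ∘ₗ YB) = (range (XP ∘ₗ YP)).map π := by
      ext v
      constructor
      · rintro ⟨w, rfl⟩
        obtain ⟨w, rfl⟩ := hπ w
        refine ⟨XP (YP w), ⟨w, rfl⟩, ?_⟩
        simp [hπx, hπy]
      · rintro ⟨_, ⟨w, rfl⟩, rfl⟩
        refine ⟨π w, ?_⟩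
        simp [hπx, hπy]
    rw [this]
  have e1 := finrank_map_add π (range (XP ∘ₗ YP))
  have e2 : range (XP ∘ₗ YP) ⊓ ker π = (ker XA ⊓ ker YA).map i := by
    rw [range_comp_eq h f, ← hex]
    ext v
    constructor
    · rintro ⟨⟨hx, hy⟩, ⟨a, rfl⟩⟩
      refine ⟨a, ⟨?_, ?_⟩, rfl⟩
      · apply hi
        rw [hix, map_zero]
        exact hx
      · apply hi
        rw [hiy, map_zero]
        exact hy
    · rintro ⟨a, ⟨hx, hy⟩, rfl⟩
      rw [SetLike.mem_coe, mem_ker] at hx hy
      refine ⟨⟨?_, ?_⟩, ⟨a, rfl⟩⟩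
      · rw [SetLike.mem_coe, mem_ker, ← hix, hx, map_zero]
      · rw [SetLike.mem_coe, mem_ker, ← hiy, hy, map_zero]
  rw [e2, finrank_map_inj i hi] at e1
  unfold dl
  rw [hrk]
  have : finrank k (range (XP ∘ₗ YP)) = rk XP YP := rfl
  omega

end ses

end Pool.Agent.N8.CoreDim
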