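import Pool.Agent.N8.CoreDim.Kron

set_option autoImplicit false

open CategoryTheory MonoidalCategory Limits Module

namespace Pool.Agent.N8.CoreDim

noncomputable section

theorem X_unit (v : (𝟙_ (Rep.{0} K G)).V) : X (𝟙_ (Rep.{0} K G)) v = 0 := add_self' (V := K) v
theorem Y_unit (v : (𝟙_ (Rep.{0} K G)).V) : Y (𝟙_ (Rep.{0} K G)) v = 0 := add_self' (V := K) v

def isoU : U 0 ≅ 𝟙_ (Rep.{0} K G) :=
  mkIso' (A := U 0) (B := 𝟙_ (Rep.{0} K G))
    ({ toFun := fun v => v.1 0
       map_add' := fun _ _ => rfl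
       map_smul' := fun _ _ => rfl
       invFun := fun c => (fun _ => c, 0)
       left_inv := by
        rintro ⟨v, w⟩
        ext i
        · have : i = 0 := Subsingleton.elim _ _
          rw [this]
        · exact i.elim0
       right_inv := fun _ => rfl } : ((Fin 1 → K) × (Fin 0 → K)) ≃ₗ[K] K)
    (fun v => (congrArg (fun w : (Fin 1 → K) × (Fin 0 → K) => w.1 0)
      (X_mkRep (KX (tl 0)) (KX (ini 0)) (Ksq _ _) v)).trans (X_unit _).symm)
    (fun v => (congrArg (fun w : (Fin 1 → K) × (Fin 0 → K) => w.1 0)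
      (Y_mkRep (KX (tl 0)) (KX (ini 0)) (Ksq _ _) v)).trans (Y_unit _).symm)

def isoD : D 0 ≅ 𝟙_ (Rep.{0} K G) :=
  mkIso' (A := D 0) (B := 𝟙_ (Rep.{0} K G))
    ({ toFun := fun v => v.2 0
       map_add' := fun _ _ => rfl
       map_smul' := fun _ _ => rfl
       invFun := fun c => (0, fun _ => c)
       left_inv := by
        rintro ⟨v, w⟩
        ext i
        · exact i.elim0
        · have : i = 0 := Subsingleton.elim _ _
          rw [this]
       right_inv := fun _ => rfl } : ((Fin 0 → K) × (Fin 1 → K)) ≃ₗ[K] K)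
    (fun v => (congrArg (fun w : (Fin 0 → K) × (Fin 1 → K) => w.2 0)
      (X_mkRep (KX (sn 0)) (KX (cn 0)) (Ksq _ _) v)).trans (X_unit _).symm)
    (fun v => (congrArg (fun w : (Fin 0 → K) × (Fin 1 → K) => w.2 0)
      (Y_mkRep (KX (sn 0)) (KX (cn 0)) (Ksq _ _) v)).trans (Y_unit _).symm)

/-- The module `Ω k ⊕ Ω⁻¹ k`. -/
def M : Rep.{0} K G := U 1 ⊞ D 1

def splitM : Split (U 1) (D 1) M := Split.biprod _ _

theorem finite_of_iso {A B : Rep.{0} K G} (e : A ≅ B) (h : FiniteDimensional K A.V) :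
    FiniteDimensional K B.V :=
  Module.Finite.of_surjective e.hom.hom.toLinearMap (fun b => ⟨e.inv.hom b, comp_eq_id e.inv_hom_id b⟩)

theorem finite_of_split {A B S : Rep.{0} K G} (s : Split A B S) (hA : FiniteDimensional K A.V)
    (hB : FiniteDimensional K B.V) : FiniteDimensional K S.V := by
  have hB : FiniteDimensional K (A.V × B.V) := inferInstance
  exact Module.Finite.of_surjective
    (LinearMap.coprod s.iA.hom.toLinearMap s.iB.hom.toLinearMap)
    (fun v => ⟨(s.pA.hom v, s.pB.hom v), s.tot_apply v⟩)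

instance (m : ℕ) : FiniteDimensional K (U m).V :=
  inferInstanceAs (FiniteDimensional K ((Fin (m + 1) → K) × (Fin m → K)))

instance (m : ℕ) : FiniteDimensional K (D m).V :=
  inferInstanceAs (FiniteDimensional K ((Fin m → K) × (Fin (m + 1) → K)))

instance : FiniteDimensional K M.V := finite_of_split splitM inferInstance inferInstance

instance (A B : Rep.{0} K G) [FiniteDimensional K A.V] [FiniteDimensional K B.V] :
    FiniteDimensional K (A ⊗ B : Rep.{0} K G).V :=
  inferInstanceAs (FiniteDimensional K (TensorProduct K A.V B.V))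

theorem ses_tensor_U (A : Rep.{0} K G) [FiniteDimensional K A.V] : Ses (A ⊗ U 1) A :=
  ((ses_U 0).tensorLeft A).congr (Iso.refl _) (whiskerLeftIso A isoU ≪≫ ρ_ A)

theorem ses_tensor_D (A : Rep.{0} K G) [FiniteDimensional K A.V] : Ses A (A ⊗ D 1) :=
  ((ses_D 0).tensorLeft A).congr (whiskerLeftIso A isoD ≪≫ ρ_ A).symm (Iso.refl _)

theorem g_succ (n : ℕ) (A : Rep.{0} K G) [FiniteDimensional K A.V] :
    g M (n + 1) A = hh (T M n A) + hs (T M n A) := by
  have h1 : g M (n + 1) A = g M n (A ⊗ M) := rfl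
  rw [h1, g_split M n (splitM.tensorLeft A), g_left M n (ses_tensor_U A),
    g_right M n (ses_tensor_D A)]

theorem g_U_left (n m : ℕ) : g M n (U (m + 1)) = hh (T M n (U m)) := g_left M n (ses_U m)
theorem g_U_right (n m : ℕ) : g M n (U m) = hs (T M n (U (m + 1))) := g_right M n (ses_U m)
theorem g_D_left (n m : ℕ) : g M n (D m) = hh (T M n (D (m + 1))) := g_left M n (ses_D m)
theorem g_D_right (n m : ℕ) : g M n (D (m + 1)) = hs (T M n (D m)) := g_right M n (ses_D m)

theorem g_U_succ (n m : ℕ) : g M (n + 1) (U (m + 1)) = g M n (U (m + 2)) + g M n (U m) := by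
  rw [g_succ, g_U_left n (m + 1), g_U_right n m]

theorem g_D_succ (n m : ℕ) : g M (n + 1) (D (m + 1)) = g M n (D m) + g M n (D (m + 2)) := by
  rw [g_succ, g_D_left n m, g_D_right n (m + 1)]

theorem g_U_eq_D (n : ℕ) : g M n (U 0) = g M n (D 0) := g_iso M n (isoU ≪≫ isoD.symm)

theorem g_eq_zero_right (n : ℕ) : hs (T M n (U 0)) = g M n (D 1) := by
  have h1 : Ses (U 0) (D 1) := (ses_D 0).congr (isoU ≪≫ isoD.symm) (Iso.refl _)
  rw [g_right M n h1]

theorem g_U_zero (n : ℕ) : g M (n + 1) (U 0) = g M n (U 1) + g M n (D 1) := by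
  rw [g_succ, g_U_left n 0, g_eq_zero_right]

theorem g_symm (n : ℕ) : ∀ m, g M n (U m) = g M n (D m) := by
  induction n with
  | zero =>
    intro m
    exact (dl'_U m).trans (dl'_D m).symm
  | succ n ih =>
    intro m
    cases m with
    | zero => exact g_U_eq_D _
    | succ m => rw [g_U_succ, g_D_succ, ih, ih, add_comm]

/-- `δ (U_m ⊗ M^n)` -/
def gg (n m : ℕ) : ℤ := g M n (U m)

theorem gg_zero (m : ℕ) : gg 0 m = 2 * m + 1 := dl'_U m
theorem gg_succ_succ (n m : ℕ) : gg (n + 1) (m + 1) = gg n (m + 2) + gg n m := g_U_succ n m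
theorem gg_succ_zero (n : ℕ) : gg (n + 1) 0 = 2 * gg n 1 := by
  unfold gg
  rw [g_U_zero, ← g_symm, two_mul]

end

end Pool.Agent.N8.CoreDim
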