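import Pool.Agent.N8.CoreDim.LA

set_option autoImplicit false

open CategoryTheory MonoidalCategory Limits

namespace Pool.Agent.N8.CoreDim

/-- The field with two elements. -/
abbrev K : Type := ZMod 2
/-- The Klein four group. -/
abbrev G : Type := Multiplicative (ZMod 2) × Multiplicative (ZMod 2)

/-- First generator. -/
def gx : G := (Multiplicative.ofAdd 1, 1)
/-- Second generator. -/
def gy : G := (1, Multiplicative.ofAdd 1)

theorem gx_gx : gx * gx = 1 := by decide
theorem gy_gy : gy * gy = 1 := by decide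
theorem gx_gy : gx * gy = gy * gx := by decide
theorem G_cases : ∀ g : G, g = 1 ∨ g = gx ∨ g = gy ∨ g = gx * gy := by decide

noncomputable section

/-- The action of `gx`. -/
def lx (A : Rep.{0} K G) : A.V →ₗ[K] A.V := A.ρ gx
/-- The action of `gy`. -/
def ly (A : Rep.{0} K G) : A.V →ₗ[K] A.V := A.ρ gy

theorem lx_lx (A : Rep.{0} K G) (v : A.V) : lx A (lx A v) = v := by
  have : (A.ρ gx * A.ρ gx) v = v := by rw [← map_mul, gx_gx, map_one]; rfl
  exact this

theorem ly_ly (A : Rep.{0} K G) (v : A.V) : ly A (ly A v) = v := by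
  have : (A.ρ gy * A.ρ gy) v = v := by rw [← map_mul, gy_gy, map_one]; rfl
  exact this

theorem lx_ly (A : Rep.{0} K G) (v : A.V) : lx A (ly A v) = ly A (lx A v) := by
  have : (A.ρ gx * A.ρ gy) v = (A.ρ gy * A.ρ gx) v := by rw [← map_mul, gx_gy, map_mul]
  exact this

theorem hom_lx {A B : Rep.{0} K G} (f : A ⟶ B) (v : A.V) :
    f.hom (lx A v) = lx B (f.hom v) := Rep.hom_comm_apply f gx v

theorem hom_ly {A B : Rep.{0} K G} (f : A ⟶ B) (v : A.V) :
    f.hom (ly A v) = ly B (f.hom v) := Rep.hom_comm_apply f gy v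

/-- `X = 1 + gx`. -/
def X (A : Rep.{0} K G) : A.V →ₗ[K] A.V := LinearMap.id + lx A
/-- `Y = 1 + gy`. -/
def Y (A : Rep.{0} K G) : A.V →ₗ[K] A.V := LinearMap.id + ly A

theorem X_apply (A : Rep.{0} K G) (v : A.V) : X A v = v + lx A v := rfl
theorem Y_apply (A : Rep.{0} K G) (v : A.V) : Y A v = v + ly A v := rfl

theorem hom_X {A B : Rep.{0} K G} (f : A ⟶ B) (v : A.V) :
    f.hom (X A v) = X B (f.hom v) := by
  rw [X_apply, X_apply, map_add, hom_lx]

theorem hom_Y {A B : Rep.{0} K G} (f : A ⟶ B) (v : A.V) :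
    f.hom (Y A v) = Y B (f.hom v) := by
  rw [Y_apply, Y_apply, map_add, hom_ly]

theorem add_self' {V : Type*} [AddCommGroup V] [Module K V] (v : V) : v + v = 0 := by
  rw [← two_smul K v, show (2 : K) = 0 from rfl, zero_smul]

theorem sq (A : Rep.{0} K G) : Sq (X A) (Y A) where
  xx v := by
    rw [X_apply, X_apply, map_add, lx_lx, add_comm (lx A v) v, add_self']
  yy v := by
    rw [Y_apply, Y_apply, map_add, ly_ly, add_comm (ly A v) v, add_self']
  xy v := by
    simp only [X_apply, Y_apply, map_add, lx_ly]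
    abel

/-- Higman's criterion for the Klein four group. -/
def H (A : Rep.{0} K G) : Prop :=
  ∃ E : A.V →ₗ[K] A.V, ∀ v, E v + lx A (E (lx A v)) + ly A (E (ly A v)) +
    lx A (ly A (E (lx A (ly A v)))) = v

theorem eq_of_add_eq_zero' {V : Type*} [AddCommGroup V] [Module K V] {v w : V}
    (h : v + w = 0) : w = v := by
  have := congrArg (v + ·) h
  simpa [← add_assoc, add_self'] using this

theorem H.fr {A : Rep.{0} K G} (h : H A) : Fr (X A) (Y A) := by
  obtain ⟨E, hE⟩ := h
  have kx : ∀ v, X A v = 0 → X A (E v + ly A (E (ly A v))) = v := by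
    intro v hv
    have h1 : lx A v = v := eq_of_add_eq_zero' hv
    have h2 : lx A (ly A v) = ly A v := by rw [lx_ly, h1]
    have h3 := hE v
    rw [h1, h2] at h3
    rw [X_apply, map_add]
    rw [← h3]
    rw [h3]
    conv_rhs => rw [← h3]
    abel
  have ky : ∀ v, Y A v = 0 → Y A (E v + lx A (E (lx A v))) = v := by
    intro v hv
    have h1 : ly A v = v := eq_of_add_eq_zero' hv
    have h3 := hE v
    rw [h1] at h3
    rw [Y_apply, map_add]
    conv_rhs => rw [← h3]
    rw [lx_ly]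
    abel
  refine ⟨fun v hv => ⟨_, kx v hv⟩, fun v hv => ⟨_, ky v hv⟩, ?_⟩
  intro v hv
  -- `E₁ = E + y E y` commutes with `Y`
  have h1 := kx (Y A v) hv
  have h2 : E (Y A v) + ly A (E (ly A (Y A v))) = Y A (E v + ly A (E (ly A v))) := by
    simp only [Y_apply, map_add, ly_ly]
    abel
  rw [h2] at h1
  set w := E v + ly A (E (ly A v)) with hw
  have h3 : Y A (v + X A w) = 0 := by
    rw [map_add, ← (sq A).xy, h1, add_self']
  have h4 := ky _ h3
  refine ⟨w, E (v + X A w) + lx A (E (lx A (v + X A w))), ?_⟩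
  rw [h4, add_comm v, ← add_assoc, add_self', zero_add]

/-- Build a morphism from a linear map commuting with both generators. -/
def mkHom {A B : Rep.{0} K G} (u : A.V →ₗ[K] B.V) (hx : ∀ v, u (lx A v) = lx B (u v))
    (hy : ∀ v, u (ly A v) = ly B (u v)) : A ⟶ B :=
  Rep.ofHom (ρ := A.ρ) (σ := B.ρ) ⟨u, by
    intro g
    ext v
    rcases G_cases g with rfl | rfl | rfl | rfl
    · simp
    · exact hx v
    · exact hy v
    · simp only [map_mul]
      have h1 := hx (ly A v)
      rw [hy] at h1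
      exact h1⟩

@[simp] theorem mkHom_apply {A B : Rep.{0} K G} (u : A.V →ₗ[K] B.V) (hx) (hy) (v : A.V) :
    (mkHom (A := A) (B := B) u hx hy).hom v = u v := rfl

/-- If `H` holds for `A` then `A` is projective. -/
theorem H.projective {A : Rep.{0} K G} (h : H A) : Projective A := by
  obtain ⟨E, hE⟩ := h
  constructor
  intro Q R f e he
  rw [Rep.epi_iff_surjective] at he
  obtain ⟨s, hs⟩ := LinearMap.exists_rightInverse_of_surjective e.hom.toLinearMap
    (LinearMap.range_eq_top.2 he)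
  have hs' : ∀ v, e.hom (s v) = v := fun v => congrArg (fun l => l v) hs
  let t : A.V →ₗ[K] Q.V := s ∘ₗ f.hom.toLinearMap ∘ₗ E
  have ht : ∀ v, e.hom (t v) = f.hom (E v) := fun v => hs' _
  let u : A.V →ₗ[K] Q.V := t + lx Q ∘ₗ t ∘ₗ lx A + ly Q ∘ₗ t ∘ₗ ly A +
    lx Q ∘ₗ ly Q ∘ₗ t ∘ₗ lx A ∘ₗ ly A
  have hu : ∀ v, u v = t v + lx Q (t (lx A v)) + ly Q (t (ly A v)) +
    lx Q (ly Q (t (lx A (ly A v)))) := fun v => rfl
  have hux : ∀ v, u (lx A v) = lx Q (u v) := by
    intro v
    simp only [hu, map_add, lx_lx, ← lx_ly]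
    abel
  have huy : ∀ v, u (ly A v) = ly Q (u v) := by
    intro v
    simp only [hu, map_add, ly_ly, ← lx_ly]
    abel
  have heu : ∀ v, e.hom (u v) = f.hom v := by
    intro v
    simp only [hu, map_add, hom_lx, hom_ly, ht]
    conv_rhs => rw [← hE v]
    simp only [map_add, hom_lx, hom_ly]
  refine ⟨mkHom u hux huy, ?_⟩
  ext v
  exact heu v

end

end Pool.Agent.N8.CoreDim
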