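import Mathlib

set_option autoImplicit false

namespace Pool.Agent.N8.CoreDim.Series

/-- Number of `±1` paths of length `n` ending at `j`. -/
def N : ℕ → ℤ → ℤ
  | 0, j => if j = 0 then 1 else 0
  | n + 1, j => N n (j - 1) + N n (j + 1)

theorem N_zero (j : ℤ) : N 0 j = if j = 0 then 1 else 0 := rfl
theorem N_succ (n : ℕ) (j : ℤ) : N (n + 1) j = N n (j - 1) + N n (j + 1) := rfl

theorem N_neg (n : ℕ) : ∀ j, N n (-j) = N n j := by
  induction n with
  | zero => intro j; simp [N_zero]
  | succ n ih =>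
    intro j
    rw [N_succ, N_succ, ← ih (-j - 1), ← ih (-j + 1)]
    rw [show -(-j - 1) = j + 1 by ring, show -(-j + 1) = j - 1 by ring, add_comm]

theorem N_ratio (n : ℕ) : ∀ j : ℤ, (n + 1 + j) * N n (j + 1) = (n + 1 - j) * N n (j - 1) := by
  induction n with
  | zero =>
    intro j
    simp only [N_zero]
    split_ifs with h1 h2 h2
    · omega
    · have : j = -1 := by omega
      subst this; simp
    · have : j = 1 := by omega
      subst this; simp
    · simp
  | succ n ih =>
    intro j
    have h1 := ih (j + 1)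
    have h2 := ih (j - 1)
    rw [N_succ, N_succ]
    rw [show j + 1 - 1 = j by ring] at *
    rw [show j - 1 + 1 = j by ring] at *
    push_cast at *
    rw [show j + 1 + 1 = j + 2 by ring] at *
    rw [show j - 1 - 1 = j - 2 by ring] at *
    linear_combination h1 + h2

variable (G : ℕ → ℕ → ℤ) (h0 : ∀ m : ℕ, G 0 m = 2 * m + 1)
  (hs : ∀ n m, G (n + 1) (m + 1) = G n (m + 2) + G n m) (hz : ∀ n, G (n + 1) 0 = 2 * G n 1)

include h0 hs hz

theorem second_diff (n : ℕ) : (∀ m : ℕ, G n (m + 2) - 2 * G n (m + 1) + G n m = 4 * N n (m + 1)) ∧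
    2 * (G n 1 - G n 0) = 4 * N n 0 := by
  induction n with
  | zero =>
    constructor
    · intro m
      rw [h0, h0, h0, N_zero, if_neg (by omega)]
      push_cast
      ring
    · rw [h0, h0, N_zero]
      simp
  | succ n ih =>
    obtain ⟨ih1, ih2⟩ := ih
    constructor
    · intro m
      cases m with
      | zero =>
        have h1 := ih1 1
        have e1 := hs n 1
        have e2 := hs n 0
        have e3 := hz n
        rw [N_succ]
        norm_num at h1 e1 e2 e3 ⊢
        linear_combination h1 + ih2 + e1 - 2 * e2 + e3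
      | succ m =>
        have h1 := ih1 (m + 2)
        have h2 := ih1 m
        have e1 := hs n (m + 2)
        have e2 := hs n (m + 1)
        have e3 := hs n m
        rw [N_succ]
        push_cast at *
        rw [show (m : ℤ) + 1 + 1 - 1 = m + 1 by ring, show (m : ℤ) + 1 + 1 + 1 = m + 2 + 1 by ring]
        linear_combination h1 + h2 + e1 - 2 * e2 + e3
    · have h1 := ih1 0
      have e1 := hs n 0
      have e3 := hz n
      have e4 := N_neg n 1
      rw [N_succ]
      norm_num at h1 e1 e3 e4 ⊢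
      rw [e4]
      linear_combination 2 * h1 + 2 * e1 - 2 * e3

/-- central numbers -/
def z (n : ℕ) : ℤ := N n 0

omit h0 hs hz in
theorem z_rec (n : ℕ) : ((n : ℤ) + 2) * z (n + 2) = 4 * (n + 1) * z n := by
  unfold z
  have e1 := N_succ (n + 1) 0
  have e2 := N_neg (n + 1) 1
  have e3 := N_succ n 1
  have e4 := N_ratio n 1
  norm_num at e1 e2 e3 e4 ⊢
  rw [e1, e2, e3]
  linear_combination 2 * e4

omit h0 hs hz in
theorem z_zero : z 0 = 1 := rfl

omit h0 hs hz in
theorem z_one : z 1 = 0 := rfl

theorem c_rec (n : ℕ) : G (n + 1) 0 = 2 * G n 0 + 4 * z n := by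
  have h := (second_diff G h0 hs hz n).2
  have e := hz n
  unfold z
  linear_combination e + h

open PowerSeries in
theorem irrational (P Q : Polynomial ℚ) (hQ : Q ≠ 0)
    (h : (Q : PowerSeries ℚ) * PowerSeries.mk (fun n => ((G n 0 : ℤ) : ℚ)) = (P : PowerSeries ℚ)) :
    False := by
  set F : PowerSeries ℚ := PowerSeries.mk (fun n => ((G n 0 : ℤ) : ℚ)) with hF
  set Z : PowerSeries ℚ := PowerSeries.mk (fun n => ((z n : ℤ) : ℚ)) with hZ
  have hFZ : (1 - 2 * (X : PowerSeries ℚ)) * F = 1 + 4 * (X : PowerSeries ℚ) * Z := by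
    have e1 : F = 1 + X * (PowerSeries.mk (fun n => ((G (n + 1) 0 : ℤ) : ℚ))) := by
      ext n
      cases n with
      | zero => simp [hF, h0]
      | succ n => simp [hF, PowerSeries.coeff_succ_X_mul, PowerSeries.coeff_one]
    have e2 : PowerSeries.mk (fun n => ((G (n + 1) 0 : ℤ) : ℚ)) = 2 * F + 4 * Z := by
      ext n
      have h1 := c_rec G h0 hs hz n
      have c2 : (2 : PowerSeries ℚ) = PowerSeries.C 2 := rfl
      have c4 : (4 : PowerSeries ℚ) = PowerSeries.C 4 := rfl
      rw [map_add, c2, c4, PowerSeries.coeff_C_mul, PowerSeries.coeff_C_mul]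
      simp [hF, hZ, h1]
    rw [e2] at e1
    linear_combination e1
  have hZ1 : (1 - 4 * (X : PowerSeries ℚ) ^ 2) * PowerSeries.derivative ℚ Z =
      4 * (X : PowerSeries ℚ) * Z := by
    have e1 : PowerSeries.derivative ℚ Z =
        X * PowerSeries.mk (fun n => (((n : ℤ) + 2) * z (n + 2) : ℤ) : ℕ → ℚ) := by
      ext n
      rw [PowerSeries.coeff_derivative]
      cases n with
      | zero => simp [hZ, z_one]
      | succ n =>
        rw [PowerSeries.coeff_succ_X_mul]
        simp [hZ]
        ring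
    have e2 : PowerSeries.mk (fun n => (((n : ℤ) + 2) * z (n + 2) : ℤ) : ℕ → ℚ) =
        4 * (X * PowerSeries.derivative ℚ Z + Z) := by
      ext n
      have c4 : (4 : PowerSeries ℚ) = PowerSeries.C 4 := rfl
      rw [c4, PowerSeries.coeff_C_mul, map_add]
      rw [PowerSeries.coeff_mk, z_rec]
      cases n with
      | zero => simp [hZ]
      | succ n =>
        rw [PowerSeries.coeff_succ_X_mul, PowerSeries.coeff_derivative]
        simp [hZ]
        ring
    rw [e2] at e1
    linear_combination e1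
  have hZ2 : Z ^ 2 * (1 - 4 * (X : PowerSeries ℚ) ^ 2) = 1 := by
    apply PowerSeries.derivative.ext
    · rw [Derivation.leibniz, PowerSeries.derivative_pow, map_sub, PowerSeries.derivative_one,
        Derivation.leibniz, PowerSeries.derivative_pow, PowerSeries.derivative_X]
      have c4 : (4 : PowerSeries ℚ) = PowerSeries.C 4 := rfl
      have c4' : PowerSeries.derivative ℚ (4 : PowerSeries ℚ) = 0 := by
        rw [c4, PowerSeries.derivative_C]
      rw [c4']
      simp only [smul_eq_mul]
      push_cast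
      linear_combination (2 * Z) * hZ1
    · simp [hZ, z_zero]
  have key : (4 * (X : PowerSeries ℚ) * Q) * Z = (1 - 2 * (X : PowerSeries ℚ)) * P - Q := by
    linear_combination (1 - 2 * (X : PowerSeries ℚ)) * h - (Q : PowerSeries ℚ) * hFZ
  set A : Polynomial ℚ := 4 * Polynomial.X * Q with hA
  set B : Polynomial ℚ := (1 - 2 * Polynomial.X) * P - Q with hB
  have hA0 : A ≠ 0 := by
    rw [hA]
    exact mul_ne_zero (mul_ne_zero (by norm_num) Polynomial.X_ne_zero) hQ
  have c4 : ((4 : Polynomial ℚ) : PowerSeries ℚ) = 4 :=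
    map_ofNat (Polynomial.coeToPowerSeries.ringHom (R := ℚ)) 4
  have c2 : ((2 : Polynomial ℚ) : PowerSeries ℚ) = 2 :=
    map_ofNat (Polynomial.coeToPowerSeries.ringHom (R := ℚ)) 2
  have cA : (A : PowerSeries ℚ) = 4 * (X : PowerSeries ℚ) * Q := by
    rw [hA, Polynomial.coe_mul, Polynomial.coe_mul, Polynomial.coe_X, c4]
  have cB : (B : PowerSeries ℚ) = (1 - 2 * (X : PowerSeries ℚ)) * P - Q := by
    rw [hB, Polynomial.coe_sub, Polynomial.coe_mul, Polynomial.coe_sub, Polynomial.coe_mul,
      Polynomial.coe_X, Polynomial.coe_one, c2]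
  rw [← cA, ← cB] at key
  have key2 : (A : PowerSeries ℚ) ^ 2 = (B : PowerSeries ℚ) ^ 2 * (1 - 4 * (X : PowerSeries ℚ) ^ 2) := by
    rw [← key]
    linear_combination (-(A : PowerSeries ℚ) ^ 2) * hZ2
  have key3 : A ^ 2 = B ^ 2 * (1 - 4 * Polynomial.X ^ 2) := by
    apply Polynomial.coe_injective ℚ
    have e4 : ((1 - 4 * Polynomial.X ^ 2 : Polynomial ℚ) : PowerSeries ℚ) =
        1 - 4 * (X : PowerSeries ℚ) ^ 2 := by
      rw [Polynomial.coe_sub, Polynomial.coe_mul, Polynomial.coe_pow, Polynomial.coe_X,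
        Polynomial.coe_one, c4]
    rw [Polynomial.coe_mul, Polynomial.coe_pow, Polynomial.coe_pow, key2, e4]
  have hB0 : B ≠ 0 := by
    rintro hB0
    rw [hB0] at key3
    apply hA0
    simpa using key3
  have hl := congrArg Polynomial.leadingCoeff key3
  rw [Polynomial.leadingCoeff_mul, Polynomial.leadingCoeff_pow, Polynomial.leadingCoeff_pow] at hl
  have h4 : (1 - 4 * Polynomial.X ^ 2 : Polynomial ℚ).leadingCoeff = -4 := by
    have : (1 - 4 * Polynomial.X ^ 2 : Polynomial ℚ) =
        Polynomial.C (-4) * Polynomial.X ^ 2 + Polynomial.C 0 * Polynomial.X + Polynomial.C 1 := by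
      have c4 : (Polynomial.C (-4) : Polynomial ℚ) = -4 := by
        rw [map_neg]; rfl
      rw [c4, map_zero, map_one]
      ring
    rw [this, Polynomial.leadingCoeff_quadratic (by norm_num)]
  rw [h4] at hl
  have hA1 := Polynomial.leadingCoeff_ne_zero.2 hA0
  have hA2 : 0 < A.leadingCoeff ^ 2 := by positivity
  have hB2 : 0 ≤ B.leadingCoeff ^ 2 := by positivity
  linarith

end Pool.Agent.N8.CoreDim.Series
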