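import Pool.Agent.N8.CoreDim.Tens

set_option autoImplicit false

open CategoryTheory MonoidalCategory Limits Module

namespace Pool.Agent.N8.CoreDim

noncomputable section

open scoped TensorProduct

/-- `0 → A → P → B → 0` exact, with `P` satisfying Higman's criterion. -/
structure SesData (A P B : Rep.{0} K G) where
  /-- injection -/
  i : A ⟶ P
  /-- surjection -/
  π : P ⟶ B
  inj : Function.Injective i.hom
  surj : Function.Surjective π.hom
  ex : ∀ v, π.hom v = 0 → ∃ a, i.hom a = v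
  zero : ∀ a, π.hom (i.hom a) = 0
  hH : H P

theorem SesData.exact {A P B : Rep.{0} K G} (s : SesData A P B) :
    Function.Exact s.i.hom.toLinearMap s.π.hom.toLinearMap := by
  intro v
  constructor
  · intro hv
    exact s.ex v hv
  · rintro ⟨a, rfl⟩
    exact s.zero a

def SesData.tensorRight {A P B : Rep.{0} K G} (s : SesData A P B) (Z : Rep.{0} K G) :
    SesData (A ⊗ Z) (P ⊗ Z) (B ⊗ Z) where
  i := s.i ▷ Z
  π := s.π ▷ Z
  inj := Module.Flat.rTensor_preserves_injective_linearMap (M := Z.V) s.i.hom.toLinearMap s.inj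
  surj := LinearMap.rTensor_surjective Z.V (g := s.π.hom.toLinearMap) s.surj
  ex v hv := by
    have h := rTensor_exact Z.V s.exact s.surj
    exact (h v).1 hv
  zero a := by
    have h := rTensor_exact Z.V s.exact s.surj
    exact (h _).2 ⟨a, rfl⟩
  hH := s.hH.tensor_right Z

def SesData.tensorLeft {A P B : Rep.{0} K G} (s : SesData A P B) (Z : Rep.{0} K G) :
    SesData (Z ⊗ A) (Z ⊗ P) (Z ⊗ B) where
  i := Z ◁ s.i
  π := Z ◁ s.π
  inj := Module.Flat.lTensor_preserves_injective_linearMap (M := Z.V) s.i.hom.toLinearMap s.inj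
  surj := LinearMap.lTensor_surjective Z.V (g := s.π.hom.toLinearMap) s.surj
  ex v hv := by
    have h := lTensor_exact Z.V s.exact s.surj
    exact (h v).1 hv
  zero a := by
    have h := lTensor_exact Z.V s.exact s.surj
    exact (h _).2 ⟨a, rfl⟩
  hH := s.hH.tensor_left Z

def SesData.congr {A P B A' B' : Rep.{0} K G} (s : SesData A P B) (e : A' ≅ A) (f : B ≅ B') :
    SesData A' P B' where
  i := e.hom ≫ s.i
  π := s.π ≫ f.hom
  inj := by
    intro a b hab
    have h1 : s.i.hom (e.hom.hom a) = s.i.hom (e.hom.hom b) := hab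
    have h2 := congrArg (fun v => e.inv.hom v) (s.inj h1)
    simpa only [comp_eq_id e.hom_inv_id] using h2
  surj := by
    intro b
    obtain ⟨v, hv⟩ := s.surj (f.inv.hom b)
    refine ⟨v, ?_⟩
    change f.hom.hom (s.π.hom v) = b
    rw [hv, comp_eq_id f.inv_hom_id]
  ex v hv := by
    have h1 : f.hom.hom (s.π.hom v) = 0 := hv
    have h2 := congrArg (fun v => f.inv.hom v) h1
    simp only [comp_eq_id f.hom_inv_id, map_zero] at h2
    obtain ⟨a, ha⟩ := s.ex v h2
    refine ⟨e.inv.hom a, ?_⟩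
    change s.i.hom (e.hom.hom (e.inv.hom a)) = v
    rw [comp_eq_id e.inv_hom_id, ha]
  zero a := by
    change f.hom.hom (s.π.hom (s.i.hom (e.hom.hom a))) = 0
    rw [s.zero, map_zero]
  hH := s.hH

/-- there is a short exact sequence with middle term finite-dimensional and free -/
def Ses (A B : Rep.{0} K G) : Prop :=
  ∃ P : Rep.{0} K G, FiniteDimensional K P.V ∧ Nonempty (SesData A P B)

theorem Ses.tensorRight {A B : Rep.{0} K G} (s : Ses A B) (Z : Rep.{0} K G)
    [FiniteDimensional K Z.V] : Ses (A ⊗ Z) (B ⊗ Z) := by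
  obtain ⟨P, hP, ⟨s⟩⟩ := s
  exact ⟨P ⊗ Z, inferInstanceAs (FiniteDimensional K (P.V ⊗[K] Z.V)), ⟨s.tensorRight Z⟩⟩

theorem Ses.tensorLeft {A B : Rep.{0} K G} (s : Ses A B) (Z : Rep.{0} K G)
    [FiniteDimensional K Z.V] : Ses (Z ⊗ A) (Z ⊗ B) := by
  obtain ⟨P, hP, ⟨s⟩⟩ := s
  exact ⟨Z ⊗ P, inferInstanceAs (FiniteDimensional K (Z.V ⊗[K] P.V)), ⟨s.tensorLeft Z⟩⟩

theorem Ses.congr {A B A' B' : Rep.{0} K G} (s : Ses A B) (e : A' ≅ A) (f : B ≅ B') :
    Ses A' B' := by
  obtain ⟨P, hP, ⟨s⟩⟩ := s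
  exact ⟨P, hP, ⟨s.congr e f⟩⟩

/-- `3 dim B - 4 dim rad B` -/
def hh (B : Rep.{0} K G) : ℤ := 3 * (finrank K B.V : ℤ) -
  4 * (finrank K (LinearMap.range (X B) ⊔ LinearMap.range (Y B) : Submodule K B.V) : ℤ)

/-- `4 dim soc A - dim A` -/
def hs (A : Rep.{0} K G) : ℤ := 4 * (finrank K (LinearMap.ker (X A) ⊓ LinearMap.ker (Y A) :
  Submodule K A.V) : ℤ) - (finrank K A.V : ℤ)

theorem Ses.dl'_left {A B : Rep.{0} K G} (s : Ses A B) : dl' A = hh B := by
  obtain ⟨P, hP, ⟨s⟩⟩ := s
  have : FiniteDimensional K A.V := FiniteDimensional.of_injective s.i.hom.toLinearMap s.inj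
  have : FiniteDimensional K B.V := Module.Finite.of_surjective s.π.hom.toLinearMap s.surj
  exact ses_left s.i.hom.toLinearMap s.π.hom.toLinearMap s.inj s.surj
    (LinearMap.exact_iff.1 s.exact).symm (sq P) s.hH.fr (hom_X s.i) (hom_Y s.i) (hom_X s.π)
    (hom_Y s.π)

theorem Ses.dl'_right {A B : Rep.{0} K G} (s : Ses A B) : dl' B = hs A := by
  obtain ⟨P, hP, ⟨s⟩⟩ := s
  have : FiniteDimensional K A.V := FiniteDimensional.of_injective s.i.hom.toLinearMap s.inj
  have : FiniteDimensional K B.V := Module.Finite.of_surjective s.π.hom.toLinearMap s.surj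
  exact ses_right s.i.hom.toLinearMap s.π.hom.toLinearMap s.inj s.surj
    (LinearMap.exact_iff.1 s.exact).symm (sq P) s.hH.fr (hom_X s.i) (hom_Y s.i) (hom_X s.π)
    (hom_Y s.π)

/-- Iterated tensoring with `M`. -/
def T (M : Rep.{0} K G) (n : ℕ) (A : Rep.{0} K G) : Rep.{0} K G :=
  (fun X : Rep.{0} K G => X ⊗ M)^[n] A

theorem T_zero (M A : Rep.{0} K G) : T M 0 A = A := rfl
theorem T_succ (M A : Rep.{0} K G) (n : ℕ) : T M (n + 1) A = T M n (A ⊗ M) := rfl

theorem T_ses (M : Rep.{0} K G) [FiniteDimensional K M.V] (n : ℕ) :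
    ∀ {A B : Rep.{0} K G}, Ses A B → Ses (T M n A) (T M n B) := by
  induction n with
  | zero => exact fun s => s
  | succ n ih => exact fun s => ih (s.tensorRight M)

theorem T_iso (M : Rep.{0} K G) (n : ℕ) :
    ∀ {A B : Rep.{0} K G}, (A ≅ B) → Nonempty (T M n A ≅ T M n B) := by
  induction n with
  | zero => exact fun s => ⟨s⟩
  | succ n ih => exact fun s => ih (whiskerRightIso s M)

theorem T_split (M : Rep.{0} K G) (n : ℕ) :
    ∀ {A B S : Rep.{0} K G}, Split A B S → Nonempty (Split (T M n A) (T M n B) (T M n S)) := by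
  induction n with
  | zero => exact fun s => ⟨s⟩
  | succ n ih => exact fun s => ih (s.tensorRight M)

theorem T_fin (M : Rep.{0} K G) [FiniteDimensional K M.V] (n : ℕ) :
    ∀ {A : Rep.{0} K G}, FiniteDimensional K A.V → FiniteDimensional K (T M n A).V := by
  induction n with
  | zero => exact fun s => s
  | succ n ih =>
    intro A s
    exact ih (inferInstanceAs (FiniteDimensional K (A.V ⊗[K] M.V)))

/-- `g n A = δ (A ⊗ M ^ n)` -/
def g (M : Rep.{0} K G) (n : ℕ) (A : Rep.{0} K G) : ℤ := dl' (T M n A)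

theorem g_iso (M : Rep.{0} K G) (n : ℕ) {A B : Rep.{0} K G} (e : A ≅ B) :
    g M n A = g M n B := by
  obtain ⟨e'⟩ := T_iso M n e
  exact dl'_iso e'

theorem g_split (M : Rep.{0} K G) [FiniteDimensional K M.V] (n : ℕ) {A B S : Rep.{0} K G}
    [FiniteDimensional K S.V] (s : Split A B S) : g M n S = g M n A + g M n B := by
  obtain ⟨s'⟩ := T_split M n s
  have := T_fin M n (A := S) inferInstance
  exact s'.dl'

theorem g_left (M : Rep.{0} K G) [FiniteDimensional K M.V] (n : ℕ) {A B : Rep.{0} K G}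
    (s : Ses A B) : g M n A = hh (T M n B) := (T_ses M n s).dl'_left

theorem g_right (M : Rep.{0} K G) [FiniteDimensional K M.V] (n : ℕ) {A B : Rep.{0} K G}
    (s : Ses A B) : g M n B = hs (T M n A) := (T_ses M n s).dl'_right

end

end Pool.Agent.N8.CoreDim
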