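import Pool.Agent.N8.CoreDim.Rep

set_option autoImplicit false

open CategoryTheory MonoidalCategory Limits Module

namespace Pool.Agent.N8.CoreDim

noncomputable section

open scoped TensorProduct

/-- pure tensors -/
def tm (A B : Rep.{0} K G) (a : A.V) (b : B.V) : (A ⊗ B : Rep.{0} K G).V :=
  (a ⊗ₜ[K] b : A.V ⊗[K] B.V)

theorem lx_tm (A B : Rep.{0} K G) (a : A.V) (b : B.V) :
    lx (A ⊗ B) (tm A B a b) = tm A B (lx A a) (lx B b) := rfl

theorem ly_tm (A B : Rep.{0} K G) (a : A.V) (b : B.V) :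
    ly (A ⊗ B) (tm A B a b) = tm A B (ly A a) (ly B b) := rfl

theorem tm_add (A B : Rep.{0} K G) (a : A.V) (b b' : B.V) :
    tm A B a (b + b') = tm A B a b + tm A B a b' := TensorProduct.tmul_add _ _ _

theorem add_tm (A B : Rep.{0} K G) (a a' : A.V) (b : B.V) :
    tm A B (a + a') b = tm A B a b + tm A B a' b := TensorProduct.add_tmul _ _ _

theorem tm_induction (A B : Rep.{0} K G) (P : (A ⊗ B : Rep.{0} K G).V → Prop) (h0 : P 0)
    (ht : ∀ a b, P (tm A B a b)) (ha : ∀ v w, P v → P w → P (v + w)) : ∀ v, P v := by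
  intro v
  exact TensorProduct.induction_on (R := K) (M := A.V) (N := B.V) (motive := P) v h0 ht ha

/-- `E ⊗ 1` -/
def rT (A B : Rep.{0} K G) (E : A.V →ₗ[K] A.V) :
    (A ⊗ B : Rep.{0} K G).V →ₗ[K] (A ⊗ B : Rep.{0} K G).V :=
  (E.rTensor B.V : A.V ⊗[K] B.V →ₗ[K] A.V ⊗[K] B.V)

theorem rT_tm (A B : Rep.{0} K G) (E : A.V →ₗ[K] A.V) (a : A.V) (b : B.V) :
    rT A B E (tm A B a b) = tm A B (E a) b := rfl

/-- `1 ⊗ E` -/
def lT (A B : Rep.{0} K G) (E : B.V →ₗ[K] B.V) :
    (A ⊗ B : Rep.{0} K G).V →ₗ[K] (A ⊗ B : Rep.{0} K G).V :=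
  (E.lTensor A.V : A.V ⊗[K] B.V →ₗ[K] A.V ⊗[K] B.V)

theorem lT_tm (A B : Rep.{0} K G) (E : B.V →ₗ[K] B.V) (a : A.V) (b : B.V) :
    lT A B E (tm A B a b) = tm A B a (E b) := rfl

theorem H.tensor_right {A : Rep.{0} K G} (h : H A) (Z : Rep.{0} K G) : H (A ⊗ Z) := by
  obtain ⟨E, hE⟩ := h
  refine ⟨rT A Z E, ?_⟩
  apply tm_induction
  · simp only [map_zero, add_zero]
  · intro a z
    simp only [lx_tm, ly_tm, rT_tm, lx_lx, ly_ly, ← lx_ly Z, ← add_tm]
    rw [hE]
  · intro v w hv hw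
    simp only [map_add] at hv hw ⊢
    conv_rhs => rw [← hv, ← hw]
    abel

theorem H.tensor_left {A : Rep.{0} K G} (h : H A) (Z : Rep.{0} K G) : H (Z ⊗ A) := by
  obtain ⟨E, hE⟩ := h
  refine ⟨lT Z A E, ?_⟩
  apply tm_induction
  · simp only [map_zero, add_zero]
  · intro z a
    simp only [lx_tm, ly_tm, lT_tm, lx_lx, ly_ly, ← lx_ly Z, ← tm_add]
    rw [hE]
  · intro v w hv hw
    simp only [map_add] at hv hw ⊢
    conv_rhs => rw [← hv, ← hw]
    abel

theorem comp_eq_id {A B : Rep.{0} K G} {s : B ⟶ A} {q : A ⟶ B} (hs : s ≫ q = 𝟙 B) (v : B.V) :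
    q.hom (s.hom v) = v := by
  rw [← Rep.comp_apply, hs, Rep.id_apply]

theorem comp_eq_zero {A B C : Rep.{0} K G} {s : A ⟶ B} {q : B ⟶ C} (hs : s ≫ q = 0) (v : A.V) :
    q.hom (s.hom v) = 0 := by
  rw [← Rep.comp_apply, hs]; rfl

/-- `H` passes to retracts. -/
theorem H.retract {A B : Rep.{0} K G} (h : H A) (s : B ⟶ A) (q : A ⟶ B) (hs : s ≫ q = 𝟙 B) :
    H B := by
  obtain ⟨E, hE⟩ := h
  have hsq : ∀ v, q.hom (s.hom v) = v := comp_eq_id hs
  refine ⟨q.hom.toLinearMap ∘ₗ E ∘ₗ s.hom.toLinearMap, ?_⟩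
  intro v
  have h1 := congrArg (fun w => q.hom w) (hE (s.hom v))
  simp only [map_add, hom_lx, hom_ly, hsq] at h1
  simp only [LinearMap.comp_apply, Representation.IntertwiningMap.toLinearMap_apply, hom_lx, hom_ly]
  exact h1

/-- The stable dimension. -/
def dl' (A : Rep.{0} K G) : ℤ := dl (X A) (Y A)

theorem dl'_iso {A B : Rep.{0} K G} (e : A ≅ B) : dl' A = dl' B := by
  have h1 : ∀ v, e.inv.hom (e.hom.hom v) = v := comp_eq_id e.hom_inv_id
  have h2 : ∀ v, e.hom.hom (e.inv.hom v) = v := comp_eq_id e.inv_hom_id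
  let l : A.V ≃ₗ[K] B.V := LinearEquiv.ofLinearMap e.hom.hom.toLinearMap e.inv.hom.toLinearMap
    (by ext v; exact h2 v) (by ext v; exact h1 v)
  have h3 : finrank K A.V = finrank K B.V := l.finrank_eq
  have h4 : (LinearMap.range (X B ∘ₗ Y B)) = (LinearMap.range (X A ∘ₗ Y A)).map l.toLinearMap := by
    ext v
    constructor
    · rintro ⟨w, rfl⟩
      refine ⟨X A (Y A (e.inv.hom w)), ⟨_, rfl⟩, ?_⟩
      change e.hom.hom _ = _
      rw [hom_X, hom_Y, h2]
      rfl
    · rintro ⟨_, ⟨w, rfl⟩, rfl⟩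
      refine ⟨e.hom.hom w, ?_⟩
      change _ = e.hom.hom (X A (Y A w))
      rw [hom_X, hom_Y]
      rfl
  unfold dl' dl rk
  rw [h3, h4, LinearEquiv.finrank_map_eq]

/-- A split decomposition. -/
structure Split (A B S : Rep.{0} K G) where
  /-- first injection -/
  iA : A ⟶ S
  /-- second injection -/
  iB : B ⟶ S
  /-- first projection -/
  pA : S ⟶ A
  /-- second projection -/
  pB : S ⟶ B
  hA : iA ≫ pA = 𝟙 A
  hB : iB ≫ pB = 𝟙 B
  hAB : iA ≫ pB = 0
  hBA : iB ≫ pA = 0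
  tot : pA ≫ iA + pB ≫ iB = 𝟙 S

def Split.biprod (A B : Rep.{0} K G) : Split A B (A ⊞ B) where
  iA := biprod.inl
  iB := biprod.inr
  pA := biprod.fst
  pB := biprod.snd
  hA := by simp
  hB := by simp
  hAB := by simp
  hBA := by simp
  tot := biprod.total

def Split.tensorRight {A B S : Rep.{0} K G} (s : Split A B S) (Z : Rep.{0} K G) :
    Split (A ⊗ Z) (B ⊗ Z) (S ⊗ Z) where
  iA := s.iA ▷ Z
  iB := s.iB ▷ Z
  pA := s.pA ▷ Z
  pB := s.pB ▷ Z
  hA := by rw [← comp_whiskerRight, s.hA, id_whiskerRight]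
  hB := by rw [← comp_whiskerRight, s.hB, id_whiskerRight]
  hAB := by rw [← comp_whiskerRight, s.hAB, MonoidalPreadditive.zero_whiskerRight]
  hBA := by rw [← comp_whiskerRight, s.hBA, MonoidalPreadditive.zero_whiskerRight]
  tot := by rw [← comp_whiskerRight, ← comp_whiskerRight, ← MonoidalPreadditive.add_whiskerRight,
    s.tot, id_whiskerRight]

def Split.tensorLeft {A B S : Rep.{0} K G} (s : Split A B S) (Z : Rep.{0} K G) :
    Split (Z ⊗ A) (Z ⊗ B) (Z ⊗ S) where
  iA := Z ◁ s.iA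
  iB := Z ◁ s.iB
  pA := Z ◁ s.pA
  pB := Z ◁ s.pB
  hA := by rw [← MonoidalCategory.whiskerLeft_comp, s.hA, MonoidalCategory.whiskerLeft_id]
  hB := by rw [← MonoidalCategory.whiskerLeft_comp, s.hB, MonoidalCategory.whiskerLeft_id]
  hAB := by rw [← MonoidalCategory.whiskerLeft_comp, s.hAB, MonoidalPreadditive.whiskerLeft_zero]
  hBA := by rw [← MonoidalCategory.whiskerLeft_comp, s.hBA, MonoidalPreadditive.whiskerLeft_zero]
  tot := by rw [← MonoidalCategory.whiskerLeft_comp, ← MonoidalCategory.whiskerLeft_comp,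
    ← MonoidalPreadditive.whiskerLeft_add, s.tot, MonoidalCategory.whiskerLeft_id]

theorem Split.tot_apply {A B S : Rep.{0} K G} (s : Split A B S) (v : S.V) :
    s.iA.hom (s.pA.hom v) + s.iB.hom (s.pB.hom v) = v := by
  have := congrArg (fun f => f.hom v) s.tot
  exact this

theorem Split.dl' {A B S : Rep.{0} K G} (s : Split A B S) [FiniteDimensional K S.V] :
    dl' S = dl' A + dl' B := by
  have hinj : Function.Injective s.iB.hom.toLinearMap := by
    intro a b hab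
    have := congrArg (fun v => s.pB.hom v) hab
    change s.pB.hom (s.iB.hom a) = s.pB.hom (s.iB.hom b) at this
    rwa [comp_eq_id s.hB, comp_eq_id s.hB] at this
  have : FiniteDimensional K B.V := FiniteDimensional.of_injective _ hinj
  have h1 : finrank K S.V = finrank K A.V + finrank K B.V := by
    have := finrank_map_add s.pA.hom.toLinearMap ⊤
    have e1 : (⊤ : Submodule K S.V).map s.pA.hom.toLinearMap = ⊤ := by
      rw [eq_top_iff]
      intro v _
      exact ⟨s.iA.hom v, trivial, comp_eq_id s.hA v⟩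
    have e2 : (⊤ : Submodule K S.V) ⊓ LinearMap.ker s.pA.hom.toLinearMap =
        (⊤ : Submodule K B.V).map s.iB.hom.toLinearMap := by
      ext v
      constructor
      · rintro ⟨_, hv⟩
        have hv' : s.pA.hom v = 0 := hv
        refine ⟨s.pB.hom v, trivial, ?_⟩
        have := s.tot_apply v
        rw [hv', map_zero, zero_add] at this
        exact this
      · rintro ⟨w, _, rfl⟩
        exact ⟨trivial, comp_eq_zero s.hBA w⟩
    rw [e1, e2, finrank_map_inj _ hinj, finrank_top, finrank_top, finrank_top] at this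
    exact this.symm
  have h2 : rk (X S) (Y S) = rk (X A) (Y A) + rk (X B) (Y B) := by
    have := finrank_map_add s.pA.hom.toLinearMap (LinearMap.range (X S ∘ₗ Y S))
    have e1 : (LinearMap.range (X S ∘ₗ Y S)).map s.pA.hom.toLinearMap =
        LinearMap.range (X A ∘ₗ Y A) := by
      ext v
      constructor
      · rintro ⟨_, ⟨w, rfl⟩, rfl⟩
        refine ⟨s.pA.hom w, ?_⟩
        change X A (Y A _) = s.pA.hom (X S (Y S w))
        rw [hom_X, hom_Y]
      · rintro ⟨w, rfl⟩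
        refine ⟨X S (Y S (s.iA.hom w)), ⟨_, rfl⟩, ?_⟩
        change s.pA.hom _ = X A (Y A _)
        rw [hom_X, hom_Y, comp_eq_id s.hA]
    have e2 : (LinearMap.range (X S ∘ₗ Y S)) ⊓ LinearMap.ker s.pA.hom.toLinearMap =
        (LinearMap.range (X B ∘ₗ Y B)).map s.iB.hom.toLinearMap := by
      ext v
      constructor
      · rintro ⟨⟨w, rfl⟩, hv⟩
        have hv' : s.pA.hom (X S (Y S w)) = 0 := hv
        refine ⟨X B (Y B (s.pB.hom w)), ⟨_, rfl⟩, ?_⟩
        have := s.tot_apply (X S (Y S w))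
        rw [hv', map_zero, zero_add, hom_X, hom_Y] at this
        exact this
      · rintro ⟨_, ⟨w, rfl⟩, rfl⟩
        refine ⟨⟨s.iB.hom w, ?_⟩, comp_eq_zero s.hBA _⟩
        change X S (Y S _) = s.iB.hom (X B (Y B w))
        rw [hom_X, hom_Y]
    rw [e1, e2, finrank_map_inj _ hinj] at this
    exact this.symm
  unfold CoreDim.dl' dl
  rw [h1, h2]
  push_cast
  ring

end

end Pool.Agent.N8.CoreDim
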